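import Mathlib
import Pool.Agent.NH64.BCP

/-!
# Renorming to fail the (-1)-ball covering property at a cardinal `κ`

Every Banach space which contains an isomorphic copy of `ℓ_1(κ^+)` has an equivalent norm which fails
the `(-1)`-BCP at `κ`, for every infinite cardinal `κ`.

Let `e_γ`, `γ < κ^+`, be the image of the unit vector basis and `Z` the copy of `ℓ_1(κ^+)`.  Let
`D_0` be a minimal weak-star compact subset of a large multiple of the dual ball which is mapped by
`f ↦ (f(e_γ))_γ` onto `{-1,1}^{κ^+}`.  By minimality, for each `y` and `ε > 0` the signs of all but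
finitely many coordinates can be prescribed for functionals `f ∈ D_0` with `f(y)` within `ε` of
the maximum of `y` on `D_0`.  The norm is `sup_{f ∈ D_0} |f(x)| + dist(x, Z)`.
-/

set_option autoImplicit false

open Set Topology Cardinal

universe u

namespace Pool.Agent.NH64.Kept.RenormFails

open Pool.Agent.NH64.BCP

/-- `N` is a norm on the normed space `X`, equivalent to the given norm. -/
def EquivNorm {X : Type u} [NormedAddCommGroup X] [NormedSpace ℝ X] (N : X → ℝ) : Prop :=
  (∀ x y, N (x + y) ≤ N x + N y) ∧ (∀ (r : ℝ) (x : X), N (r • x) = |r| * N x) ∧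
    ∃ a b : ℝ, 0 < a ∧ 0 < b ∧ ∀ x, a * ‖x‖ ≤ N x ∧ N x ≤ b * ‖x‖

/-- `X` with the norm `N` has the `α`-ball covering property for the cardinal `κ`: the unit sphere of
`N` is covered by the open `N`-balls `B(a, N a - α)`, `a ∈ A`, for a set `A` of cardinality `κ`. -/
def BCP {X : Type u} [AddCommGroup X] (N : X → ℝ) (α : ℝ) (κ : Cardinal.{u}) : Prop :=
  ∃ A : Set X, #A = κ ∧ ∀ x, N x = 1 → ∃ a ∈ A, N (x - a) < N a - α

/-- `X` contains an isomorphic copy of `ℓ_1(Γ)`. -/
def ContainsL1 (X : Type u) [NormedAddCommGroup X] [NormedSpace ℝ X] (Γ : Type u) : Prop :=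
  ∃ T : lp (fun _ : Γ => ℝ) 1 →L[ℝ] X, ∃ c : ℝ, 0 < c ∧ ∀ v, c * ‖v‖ ≤ ‖T v‖

section l1

variable {Γ : Type u}

lemma norm_l1 (v : lp (fun _ : Γ => ℝ) 1) : ‖v‖ = ∑' γ, ‖v γ‖ := by
  rw [lp.norm_eq_tsum_rpow (by simp)]
  simp

lemma summable_l1 (v : lp (fun _ : Γ => ℝ) 1) : Summable fun γ => ‖v γ‖ := by
  have := lp.memℓp v
  rw [memℓp_gen_iff (by simp)] at this
  simpa using this

lemma summable_mul (t : Γ → ℝ) (ht : ∀ γ, |t γ| ≤ 1) (v : lp (fun _ : Γ => ℝ) 1) :
    Summable fun γ => t γ * v γ := by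
  refine Summable.of_norm_bounded (summable_l1 v) fun γ => ?_
  rw [norm_mul, Real.norm_eq_abs (t γ)]
  exact mul_le_of_le_one_left (norm_nonneg _) (ht γ)

/-- the functional on `ℓ_1(Γ)` given by a bounded family -/
noncomputable def phi (t : Γ → ℝ) (ht : ∀ γ, |t γ| ≤ 1) : lp (fun _ : Γ => ℝ) 1 →L[ℝ] ℝ :=
  LinearMap.mkContinuous
    { toFun := fun v => ∑' γ, t γ * v γ
      map_add' := fun v w => by
        rw [← (summable_mul t ht v).tsum_add (summable_mul t ht w)]
        refine tsum_congr fun γ => ?_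
        rw [lp.coeFn_add, Pi.add_apply]; ring
      map_smul' := fun r v => by
        rw [RingHom.id_apply, smul_eq_mul, ← tsum_mul_left]
        refine tsum_congr fun γ => ?_
        rw [lp.coeFn_smul, Pi.smul_apply, smul_eq_mul]; ring } 1 fun v => by
    simp only [LinearMap.coe_mk, AddHom.coe_mk, one_mul]
    rw [norm_l1]
    refine (norm_tsum_le_tsum_norm ?_).trans ?_
    · exact (summable_mul t ht v).norm
    · refine (summable_mul t ht v).norm.tsum_le_tsum (fun γ => ?_) (summable_l1 v)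
      rw [norm_mul, Real.norm_eq_abs (t γ)]
      exact mul_le_of_le_one_left (norm_nonneg _) (ht γ)

lemma phi_apply (t : Γ → ℝ) (ht : ∀ γ, |t γ| ≤ 1) (v : lp (fun _ : Γ => ℝ) 1) :
    phi t ht v = ∑' γ, t γ * v γ := rfl

lemma phi_norm (t : Γ → ℝ) (ht : ∀ γ, |t γ| ≤ 1) (v : lp (fun _ : Γ => ℝ) 1) :
    |phi t ht v| ≤ ‖v‖ := by
  have h := (phi t ht).le_opNorm v
  have h2 : ‖phi t ht‖ ≤ 1 := LinearMap.mkContinuous_norm_le _ zero_le_one _
  rw [Real.norm_eq_abs] at h
  nlinarith [norm_nonneg v]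

end l1

/-- **Renorming to fail the `(-1)`-ball covering property.** Let `κ` be an infinite cardinal and let
the Banach space `X` contain an isomorphic copy of `ℓ_1(κ^+)`. Then `X` has an equivalent norm
that fails the `(-1)`-BCP for `κ`. -/
theorem result (κ : Cardinal.{u}) (hκ : ℵ₀ ≤ κ) (X : Type u) [NormedAddCommGroup X]
    [NormedSpace ℝ X] [CompleteSpace X] (Γ : Type u) (hΓ : #Γ = Order.succ κ)
    (hX : ContainsL1 X Γ) :
    ∃ N : X → ℝ, EquivNorm N ∧ ¬ BCP N (-1) κ := by
  classical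
  obtain ⟨T, c, hc, hT⟩ := hX
  let e : Γ → X := fun γ => T (lp.single 1 γ (1 : ℝ))
  have hTsum : ∀ (v : lp (fun _ : Γ => ℝ) 1) (f : X →L[ℝ] ℝ),
      HasSum (fun γ => v γ * f (e γ)) (f (T v)) := by
    intro v f
    have h := lp.hasSum_single (p := 1) (by simp) v
    have h2 := (f.comp T).hasSum h
    have h3 : (fun γ => v γ * f (e γ)) =
        fun γ => (f.comp T) (lp.single 1 γ (v γ)) := by
      funext γ
      have h4 : lp.single (E := fun _ : Γ => ℝ) 1 γ (v γ) =
          (v γ) • lp.single (E := fun _ : Γ => ℝ) 1 γ (1 : ℝ) := by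
        rw [← lp.single_smul]; simp
      rw [h4, map_smul, smul_eq_mul]; rfl
    rw [h3]
    exact h2
  -- the weak-star compact set
  let M : ℝ := c⁻¹
  have hM : 0 < M := inv_pos.2 hc
  let D : Set (WeakDual ℝ X) :=
    (WeakDual.toStrongDual ⁻¹' Metric.closedBall 0 M) ∩ (ev e ⁻¹' Sgn Γ)
  have hSgn : IsClosed (Sgn Γ) := by
    have : Sgn Γ = ⋂ γ : Γ, {t : Γ → ℝ | t γ = 1 ∨ t γ = -1} := by
      ext t; simp [Sgn]
    rw [this]
    refine isClosed_iInter fun γ => ?_
    have h2 : {t : Γ → ℝ | t γ = 1 ∨ t γ = -1} = (fun t : Γ → ℝ => t γ) ⁻¹' {1, -1} := by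
      ext t; simp
    rw [h2]
    exact (Set.toFinite _).isClosed.preimage (continuous_apply γ)
  have hD : IsCompact D :=
    (WeakDual.isCompact_closedBall 0 M).inter_right (hSgn.preimage (ev_cont e))
  have hinj : Function.Injective T := by
    intro v w h
    have h1 := hT (v - w)
    rw [map_sub, h, sub_self, norm_zero] at h1
    have h2 : ‖v - w‖ ≤ 0 := by
      by_contra hcon
      push Not at hcon
      nlinarith [mul_pos hc hcon]
    exact sub_eq_zero.1 (norm_le_zero_iff.1 h2)
  have habs : ∀ t ∈ Sgn Γ, ∀ γ, |t γ| ≤ 1 := by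
    intro t ht γ
    rcases ht γ with h | h <;> rw [h] <;> simp
  have hDS : Sgn Γ ⊆ ev e '' D := by
    intro t ht
    let E := LinearEquiv.ofInjective (T : lp (fun _ : Γ => ℝ) 1 →ₗ[ℝ] X) hinj
    let g : LinearMap.range (T : lp (fun _ : Γ => ℝ) 1 →ₗ[ℝ] X) →L[ℝ] ℝ :=
      LinearMap.mkContinuous ((phi t (habs t ht)).toLinearMap.comp E.symm.toLinearMap) M
        fun z => by
          have h1 : ‖E.symm z‖ ≤ M * ‖z‖ := by
            have h2 := hT (E.symm z)
            have h3 : T (E.symm z) = (z : X) := by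
              have := congrArg Subtype.val (E.apply_symm_apply z)
              exact this
            rw [h3] at h2
            change _ ≤ c⁻¹ * ‖(z : X)‖
            rw [inv_mul_eq_div, le_div_iff₀ hc]
            linarith
          exact (phi_norm t (habs t ht) (E.symm z)).trans h1
    have hgn : ‖g‖ ≤ M := LinearMap.mkContinuous_norm_le _ hM.le _
    obtain ⟨G, hG, hGn⟩ := exists_extension_norm_eq _ g
    have hGe : ∀ γ, G (e γ) = t γ := by
      intro γ
      have h1 : e γ ∈ LinearMap.range (T : lp (fun _ : Γ => ℝ) 1 →ₗ[ℝ] X) :=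
        ⟨lp.single 1 γ (1 : ℝ), rfl⟩
      have h2 := hG ⟨e γ, h1⟩
      change G (e γ) = _ at h2
      rw [h2]
      have h3 : E.symm ⟨e γ, h1⟩ = lp.single 1 γ (1 : ℝ) := by
        rw [LinearEquiv.symm_apply_eq]
        rfl
      change phi t (habs t ht) (E.symm ⟨e γ, h1⟩) = _
      rw [h3, phi_apply, tsum_eq_single γ]
      · simp
      · intro b hb
        simp [hb]
    refine ⟨StrongDual.toWeakDual G, ⟨?_, ?_⟩, ?_⟩
    · change G ∈ Metric.closedBall 0 M
      rw [mem_closedBall_zero_iff, hGn]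
      exact hgn
    · change ev e _ ∈ Sgn Γ
      intro γ
      have : ev e (StrongDual.toWeakDual G) γ = t γ := hGe γ
      rw [this]
      exact ht γ
    · funext γ
      exact hGe γ
  obtain ⟨D0, hD0D, hD0, hD0S, hmin⟩ := exists_minimal e D hD hDS
  have hne : D0.Nonempty := by
    obtain ⟨f, hf, -⟩ := hD0S (show (fun _ : Γ => (1 : ℝ)) ∈ Sgn Γ from fun _ => Or.inl rfl)
    exact ⟨f, hf⟩
  have : Nonempty D0 := hne.to_subtype
  have hbd : ∀ f ∈ D0, ∀ x, |f x| ≤ M * ‖x‖ := by
    intro f hf x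
    have h1 : ‖WeakDual.toStrongDual f‖ ≤ M := by
      have := (hD0D hf).1
      rwa [mem_preimage, mem_closedBall_zero_iff] at this
    have h2 := (WeakDual.toStrongDual f).le_opNorm x
    rw [Real.norm_eq_abs] at h2
    exact h2.trans (mul_le_mul_of_nonneg_right h1 (norm_nonneg _))
  -- the seminorm
  let p : X → ℝ := fun x => ⨆ f : D0, |(f : WeakDual ℝ X) x|
  have hbdd : ∀ x, BddAbove (range fun f : D0 => |(f : WeakDual ℝ X) x|) := by
    intro x
    refine ⟨M * ‖x‖, ?_⟩
    rintro _ ⟨f, rfl⟩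
    exact hbd f f.2 x
  have hle : ∀ x, ∀ f ∈ D0, |f x| ≤ p x := fun x f hf => le_ciSup (hbdd x) ⟨f, hf⟩
  have hpM : ∀ x, p x ≤ M * ‖x‖ := fun x => ciSup_le fun f => hbd f f.2 x
  have hp0 : ∀ x, 0 ≤ p x := by
    intro x
    obtain ⟨f, hf⟩ := hne
    exact (abs_nonneg _).trans (hle x f hf)
  have hpadd : ∀ x y, p (x + y) ≤ p x + p y := by
    intro x y
    refine ciSup_le fun f => ?_
    rw [map_add]
    exact (abs_add_le _ _).trans (add_le_add (hle x f f.2) (hle y f f.2))
  have hpsmul : ∀ (r : ℝ) (x : X), p (r • x) = |r| * p x := by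
    intro r x
    change (⨆ f : D0, |(f : WeakDual ℝ X) (r • x)|) = |r| * ⨆ f : D0, |(f : WeakDual ℝ X) x|
    rw [Real.mul_iSup_of_nonneg (abs_nonneg r)]
    congr 1
    funext f
    rw [map_smul, smul_eq_mul, abs_mul]
  -- the distance
  let Z : Set X := (LinearMap.range (T : lp (fun _ : Γ => ℝ) 1 →ₗ[ℝ] X) : Set X)
  have hZne : Z.Nonempty := ⟨0, Submodule.zero_mem _⟩
  let q : X → ℝ := fun x => Metric.infDist x Z
  have hq0 : ∀ x, 0 ≤ q x := fun x => Metric.infDist_nonneg
  have hqle : ∀ x, q x ≤ ‖x‖ := by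
    intro x
    have := Metric.infDist_le_dist_of_mem (x := x) (s := Z) (y := 0) (Submodule.zero_mem _)
    simpa using this
  have hqz : ∀ x, ∀ z ∈ Z, q x ≤ ‖x - z‖ := by
    intro x z hz
    have := Metric.infDist_le_dist_of_mem (x := x) hz
    rwa [dist_eq_norm] at this
  have hqlt : ∀ x, ∀ r, q x < r → ∃ z ∈ Z, ‖x - z‖ < r := by
    intro x r hr
    obtain ⟨z, hz, hzr⟩ := (Metric.infDist_lt_iff hZne).1 hr
    exact ⟨z, hz, by rwa [dist_eq_norm] at hzr⟩
  have hqadd : ∀ x y, q (x + y) ≤ q x + q y := by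
    intro x y
    refine le_of_forall_pos_le_add fun ε hε => ?_
    obtain ⟨z, hz, h1⟩ := hqlt x (q x + ε / 2) (by linarith)
    obtain ⟨w, hw, h2⟩ := hqlt y (q y + ε / 2) (by linarith)
    have h3 := hqz (x + y) (z + w) (Submodule.add_mem _ hz hw)
    have h4 : x + y - (z + w) = (x - z) + (y - w) := by abel
    rw [h4] at h3
    have h5 := norm_add_le (x - z) (y - w)
    linarith
  have hqsmul_le : ∀ (r : ℝ) (x : X), q (r • x) ≤ |r| * q x := by
    intro r x
    by_cases hr : r = 0
    · subst hr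
      rw [zero_smul, abs_zero, zero_mul]
      have := hqz 0 0 (Submodule.zero_mem _)
      simpa using this
    refine le_of_forall_pos_le_add fun ε hε => ?_
    have hr' : 0 < |r| := abs_pos.2 hr
    obtain ⟨z, hz, h1⟩ := hqlt x (q x + ε / |r|) (by have := div_pos hε hr'; linarith)
    have h3 := hqz (r • x) (r • z) (Submodule.smul_mem _ r hz)
    rw [← smul_sub, norm_smul, Real.norm_eq_abs] at h3
    have h4 : |r| * ‖x - z‖ ≤ |r| * (q x + ε / |r|) := by gcongr
    have h5 : |r| * (q x + ε / |r|) = |r| * q x + ε := by field_simp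
    linarith
  have hqsmul : ∀ (r : ℝ) (x : X), q (r • x) = |r| * q x := by
    intro r x
    refine le_antisymm (hqsmul_le r x) ?_
    by_cases hr : r = 0
    · subst hr
      rw [abs_zero, zero_mul]; exact hq0 _
    have h1 := hqsmul_le r⁻¹ (r • x)
    rw [smul_smul, inv_mul_cancel₀ hr, one_smul, abs_inv] at h1
    have hr' : 0 < |r| := abs_pos.2 hr
    rw [inv_mul_eq_div, le_div_iff₀ hr'] at h1
    linarith
  have hqe : ∀ x j, q (x - e j) = q x := by
    have hej : ∀ j, e j ∈ Z := fun j => ⟨lp.single 1 j (1 : ℝ), rfl⟩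
    intro x j
    apply le_antisymm
    · refine le_of_forall_pos_le_add fun ε hε => ?_
      obtain ⟨z, hz, h1⟩ := hqlt x (q x + ε) (by linarith)
      have h3 := hqz (x - e j) (z - e j) (Submodule.sub_mem _ hz (hej j))
      rw [sub_sub_sub_cancel_right] at h3
      linarith
    · refine le_of_forall_pos_le_add fun ε hε => ?_
      obtain ⟨z, hz, h1⟩ := hqlt (x - e j) (q (x - e j) + ε) (by linarith)
      have h3 := hqz x (z + e j) (Submodule.add_mem _ hz (hej j))
      rw [add_comm z, ← sub_sub] at h3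
      linarith
  -- lower estimate on `Z`
  have hpZ : ∀ v : lp (fun _ : Γ => ℝ) 1, ‖v‖ ≤ p (T v) := by
    intro v
    let t : Γ → ℝ := fun γ => if 0 ≤ v γ then 1 else -1
    have ht : t ∈ Sgn Γ := by
      intro γ
      by_cases h : 0 ≤ v γ
      · left; simp [t, h]
      · right; simp [t, h]
    obtain ⟨f, hf, hft⟩ := hD0S ht
    have h1 := hle (T v) f hf
    have h2 : f (T v) = ∑' γ, ‖v γ‖ := by
      have h3 := hTsum v (WeakDual.toStrongDual f)
      refine ((h3.tsum_eq : _ = f (T v)).symm).trans ?_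
      refine tsum_congr fun γ => ?_
      have h4 : f (e γ) = t γ := congrFun hft γ
      change v γ * f (e γ) = _
      rw [h4, Real.norm_eq_abs]
      by_cases h : 0 ≤ v γ
      · simp [t, h, abs_of_nonneg h]
      · simp [t, h, abs_of_neg (not_le.1 h)]
    rw [h2, ← norm_l1] at h1
    exact (le_abs_self _).trans h1
  refine ⟨fun x => p x + q x, ⟨?_, ?_, ?_⟩, ?_⟩
  · intro x y
    have h1 := hpadd x y
    have h2 := hqadd x y
    linarith
  · intro r x
    change p (r • x) + q (r • x) = |r| * (p x + q x)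
    rw [hpsmul, hqsmul]; ring
  · -- equivalence
    let C : ℝ := ‖T‖ + (1 + ‖T‖ * M)
    have hC : 0 < C := by positivity
    refine ⟨C⁻¹, M + 1, inv_pos.2 hC, by positivity, fun x => ⟨?_, ?_⟩⟩
    · have key : ‖x‖ ≤ ‖T‖ * p x + (1 + ‖T‖ * M) * q x := by
        refine le_of_forall_pos_le_add fun ε hε => ?_
        have hK : 0 < 1 + ‖T‖ * M := by positivity
        obtain ⟨z, ⟨v, rfl⟩, h1⟩ := hqlt x (q x + ε / (1 + ‖T‖ * M))
          (by have := div_pos hε hK; linarith)
        change ‖x - T v‖ < _ at h1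
        have h2 : ‖x‖ ≤ ‖x - T v‖ + ‖T v‖ := by
          have := norm_add_le (x - T v) (T v)
          simpa using this
        have h3 : ‖T v‖ ≤ ‖T‖ * ‖v‖ := T.le_opNorm v
        have h4 := hpZ v
        have h5 : p (T v) ≤ p x + M * ‖x - T v‖ := by
          have h6 := hpadd x (T v - x)
          rw [add_sub_cancel] at h6
          have h7 := hpM (T v - x)
          rw [norm_sub_rev] at h7
          linarith
        have h8 : ‖T‖ * ‖v‖ ≤ ‖T‖ * (p x + M * ‖x - T v‖) :=
          mul_le_mul_of_nonneg_left (h4.trans h5) (norm_nonneg _)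
        have h9 : (1 + ‖T‖ * M) * ‖x - T v‖ ≤ (1 + ‖T‖ * M) * (q x + ε / (1 + ‖T‖ * M)) := by
          gcongr
        have h10 : (1 + ‖T‖ * M) * (q x + ε / (1 + ‖T‖ * M)) = (1 + ‖T‖ * M) * q x + ε := by
          field_simp
        nlinarith
      rw [inv_mul_eq_div, div_le_iff₀ hC]
      have h1 := hp0 x
      have h2 := hq0 x
      have h3 : 0 ≤ (1 + ‖T‖ * M) := by positivity
      have h4 := norm_nonneg T
      change ‖x‖ ≤ (p x + q x) * (‖T‖ + (1 + ‖T‖ * M))
      nlinarith [mul_nonneg h3 h1, mul_nonneg h4 h2]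
    · have h1 := hpM x
      have h2 := hqle x
      change p x + q x ≤ (M + 1) * ‖x‖
      linarith
  · -- failure of the ball covering property
    rintro ⟨A, hA, hcov⟩
    have hflip := fun (y : X) (n : ℕ) =>
      flip e D0 hD0 hne hD0S hmin y (1 / ((n : ℝ) + 1)) (by positivity)
    choose F hF using hflip
    let bad : Set Γ := ⋃ w : A × ℕ, ((F (w.1 : X) w.2 : Set Γ) ∪ (F (-(w.1 : X)) w.2 : Set Γ))
    have hbad : Cardinal.mk bad ≤ κ := by
      refine (Cardinal.mk_iUnion_le _).trans ?_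
      have h1 : #(A × ℕ) = κ := by
        rw [Cardinal.mk_prod, Cardinal.mk_nat, Cardinal.lift_aleph0, hA, Cardinal.lift_uzero]
        exact Cardinal.mul_eq_left hκ hκ Cardinal.aleph0_ne_zero
      rw [h1]
      refine (Cardinal.mul_le_max_of_aleph0_le_left hκ).trans (max_le le_rfl ?_)
      refine (ciSup_le' fun w => ?_).trans hκ
      have : ((F (w.1 : X) w.2 : Set Γ) ∪ (F (-(w.1 : X)) w.2 : Set Γ)).Finite :=
        (Finset.finite_toSet _).union (Finset.finite_toSet _)
      exact (Cardinal.lt_aleph0_iff_set_finite.2 this).le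
    have hex : ∃ j : Γ, j ∉ bad := by
      by_contra hcon
      push Not at hcon
      have h1 : bad = Set.univ := eq_univ_of_forall hcon
      rw [h1, Cardinal.mk_univ, hΓ] at hbad
      exact absurd hbad (not_le.2 (Order.lt_succ κ))
    obtain ⟨j, hj⟩ := hex
    have hj' : ∀ a ∈ A, ∀ n, j ∉ F a n ∧ j ∉ F (-a) n := by
      intro a ha n
      constructor
      · intro h
        exact hj (mem_iUnion.2 ⟨⟨⟨a, ha⟩, n⟩, Or.inl h⟩)
      · intro h
        exact hj (mem_iUnion.2 ⟨⟨⟨a, ha⟩, n⟩, Or.inr h⟩)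
    have hpej : p (e j) = 1 := by
      apply le_antisymm
      · refine ciSup_le fun f => ?_
        rcases (hD0D f.2).2 j with h | h
        · change |(f : WeakDual ℝ X) (e j)| ≤ 1
          have h' : (f : WeakDual ℝ X) (e j) = 1 := h
          rw [h']; simp
        · change |(f : WeakDual ℝ X) (e j)| ≤ 1
          have h' : (f : WeakDual ℝ X) (e j) = -1 := h
          rw [h']; simp
      · obtain ⟨f, hf, hft⟩ := hD0S (show (fun _ : Γ => (1 : ℝ)) ∈ Sgn Γ from fun _ => Or.inl rfl)
        have h1 := hle (e j) f hf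
        have h2 : f (e j) = 1 := congrFun hft j
        rw [h2, abs_one] at h1
        exact h1
    have hqej : q (e j) = 0 := by
      have h1 := hqe (e j) j
      rw [sub_self] at h1
      rw [← h1]
      have := hqz 0 0 (Submodule.zero_mem _)
      simp only [sub_zero, norm_zero] at this
      exact le_antisymm this (hq0 _)
    obtain ⟨a, ha, hlt⟩ := hcov (e j) (by change p (e j) + q (e j) = 1; rw [hpej, hqej, add_zero])
    change p (e j - a) + q (e j - a) < p a + q a - -1 at hlt
    have h1 : q (e j - a) = q a := by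
      have h2 : e j - a = (-1 : ℝ) • (a - e j) := by simp
      rw [h2, hqsmul, hqe]; simp
    -- the key inequality
    have key : p a + 1 ≤ p (e j - a) := by
      refine le_of_forall_pos_le_add fun ε hε => ?_
      obtain ⟨n, hn⟩ := exists_nat_one_div_lt (half_pos hε)
      -- a functional which almost attains the seminorm
      obtain ⟨⟨g, hg⟩, hga⟩ : ∃ g : D0, p a - ε / 2 < |(g : WeakDual ℝ X) a| :=
        exists_lt_of_lt_ciSup (by change p a - ε / 2 < p a; linarith)
      change p a - ε / 2 < |g a| at hga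
      rcases le_total 0 (g a) with h0 | h0
      · obtain ⟨f, hf, hfy, hfe⟩ := hF a n j (hj' a ha n).1 (-1) (Or.inr rfl)
        have h3 := hfy g hg
        rw [abs_of_nonneg h0] at hga
        have h4 := hle (e j - a) f hf
        rw [map_sub, hfe] at h4
        have h5 := neg_le_abs (-1 - f a)
        linarith
      · obtain ⟨f, hf, hfy, hfe⟩ := hF (-a) n j (hj' a ha n).2 1 (Or.inl rfl)
        have h3 := hfy g hg
        rw [abs_of_nonpos h0] at hga
        rw [map_neg, map_neg] at h3
        have h4 := hle (e j - a) f hf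
        rw [map_sub, hfe] at h4
        have h5 := le_abs_self (1 - f a)
        linarith
    rw [h1] at hlt
    linarith

end Pool.Agent.NH64.Kept.RenormFails
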